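import Mathlib
import Pool.Agent.MP_1ba41f_an.Shape
import Pool.Agent.MP_1ba41f_an.K4.Recon
import Pool.Agent.MP_1ba41f_an.K4.Tori
import Pool.Agent.MP_1ba41f_an.K4.Dat
import Pool.Agent.MP_1ba41f_an.K4.Kep
import Pool.Agent.MP_1ba41f_an.K4.Mod2
import Pool.Agent.MP_1ba41f_an.K4.Nf

namespace Pool.Agent.Results.MP_1ba41f_an.AreaInterval

open Pool.Agent.MP_1ba41f_an Pool.Agent.MP_1ba41f_an.K4

/-- For masses `x, y, μ` in any order, with `μ ≤ x + y`, every area up to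
`π k / (k + μ ^ (1/9))` is attained, where `k > 0` depends on `x, y` only. -/
theorem result : ∀ x y : ℝ, 0 < x → 0 < y → ∃ k : ℝ, 0 < k ∧
    ∀ (m : Fin 3 → ℝ) (σ : Equiv.Perm (Fin 3)), m (σ 0) = x → m (σ 1) = y → 0 < m (σ 2) →
      m (σ 2) ≤ x + y → ∀ A0 : ℝ, 0 < A0 → A0 ≤ Real.pi * k / (k + m (σ 2) ^ (1 / 9 : ℝ)) →
        ∃ q : ℝ → Fin 3 → ℂ, IsSol m q ∧
          area (closure (Set.range fun t => shape m (q t))) = A0 := by
  intro x y hx hy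
  obtain ⟨k, hk, h⟩ := finalq recon kron3 polar
    (tori mod2 (dat act (out kep arg) can hameq quad mean) (ctr (nf4 (avg lie)) (hiter (hstep lie)))
      dio3 param) cov1q cov2 hx hy
  refine ⟨k, hk, fun m σ e0 e1 h2 h3 A0 hA hA' => ?_⟩
  have e : m ∘ σ = ![x, y, m (σ 2)] := by
    funext i; fin_cases i <;> simp [e0, e1]
  refine att_perm σ (fun i => ?_) (e ▸ h _ h2 h3 A0 hA hA')
  obtain ⟨j, rfl⟩ := σ.surjective i
  fin_cases j
  · exact e0 ▸ hx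
  · exact e1 ▸ hy
  · exact h2

end Pool.Agent.Results.MP_1ba41f_an.AreaInterval
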