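import Mathlib
import Pool.Agent.MP_1ba41f_an.Shape
import Pool.Agent.MP_1ba41f_an.S2.AlgA
import Pool.Agent.MP_1ba41f_an.S2.W.AlgB
import Pool.Agent.MP_1ba41f_an.S2.W.AlgM
import Pool.Agent.MP_1ba41f_an.S2.W.AlgQ
import Pool.Agent.MP_1ba41f_an.S2.W.Ana
import Pool.Agent.MP_1ba41f_an.S2.W.Base
import Pool.Agent.MP_1ba41f_an.S2.W.Early
import Pool.Agent.MP_1ba41f_an.S2.W.Eb
import Pool.Agent.MP_1ba41f_an.S2.W.Fam0
import Pool.Agent.MP_1ba41f_an.S2.W.Inj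
import Pool.Agent.MP_1ba41f_an.S2.W.Out
import Pool.Agent.MP_1ba41f_an.S2.Perm
import Pool.Agent.MP_1ba41f_an.S2.FL.Half
import Pool.Agent.MP_1ba41f_an.S2.W.FM.Main
import Pool.Agent.MP_1ba41f_an.S2.LB.All
import Pool.Agent.MP_1ba41f_an.S2.W.LAAsm
import Pool.Agent.MP_1ba41f_an.S2.W.LACov
import Pool.Agent.MP_1ba41f_an.S2.W.LAFam
import Pool.Agent.MP_1ba41f_an.S2.W.LAHol
import Pool.Agent.MP_1ba41f_an.S2.W.LAMatch
import Pool.Agent.MP_1ba41f_an.S2.W.LAUnif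
import Pool.Agent.MP_1ba41f_an.S2.W.KP.Asm
import Pool.Agent.MP_1ba41f_an.S2.KP.Bar
import Pool.Agent.MP_1ba41f_an.S2.KP.Body2
import Pool.Agent.MP_1ba41f_an.S2.W.KP.Cb
import Pool.Agent.MP_1ba41f_an.S2.KP.Cons
import Pool.Agent.MP_1ba41f_an.S2.KP.End
import Pool.Agent.MP_1ba41f_an.S2.W.KP.Fin
import Pool.Agent.MP_1ba41f_an.S2.KP.FlowE
import Pool.Agent.MP_1ba41f_an.S2.W.KP.Lim
import Pool.Agent.MP_1ba41f_an.S2.W.KP.Long
import Pool.Agent.MP_1ba41f_an.S2.W.KP.Mod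
import Pool.Agent.MP_1ba41f_an.S2.W.KP.Near
import Pool.Agent.MP_1ba41f_an.S2.W.KP.Near2
import Pool.Agent.MP_1ba41f_an.S2.KP.Nu
import Pool.Agent.MP_1ba41f_an.S2.W.KP.P1
import Pool.Agent.MP_1ba41f_an.S2.KP.Rep
import Pool.Agent.MP_1ba41f_an.S2.KP.T3
import Pool.Agent.MP_1ba41f_an.S2.CV.Glue
import Pool.Agent.MP_1ba41f_an.S2.W.CV.All

namespace Pool.Agent.Results.MP_1ba41f_an.FullRange

open Pool.Agent.MP_1ba41f_an Pool.Agent.MP_1ba41f_an.S2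

theorem main [W.Lam] : W.MainStmt :=
  have hB := W.algB algA
  have hQ := W.algQ hB
  have hM := W.algM hB hQ
  have h0 := W.baseS algA hB hQ
  have hy := W.earlyS hB hQ hM h0
  have hI := W.injS hM
  have f0 := W.fam0S hB
  have hE := KP.flowES flowT
  have hR := KP.realES hE
  have hP := KP.repS hE
  have hm := KP.rminS KP.consS
  have hb := W.KP.cbS hB hM W.anaS h0
  have hL := W.KP.limS hE extT hR hP KP.consS hm hb hB h0 hy
  have h1 := W.KP.p1S hE hb h0 hL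
  have hS := W.KP.s1S hE hb h0 FL.ddS
  have hF := FL.flowsS flowT
  have hK := W.KP.kepOf hE hR hP KP.consS hm hL h1 hS
    (W.KP.finS KP.body2S (KP.endS KP.body2S KP.t3S KP.e3S KP.consS) KP.consS)
    (W.KP.longS hE hP KP.consS (KP.bootS (FL.extCS extT)) hL h1 (W.KP.p1dS hE hb h0 hL h1 hS)
      (KP.barS KP.body2S KP.t3S))
    KP.nuS (W.KP.nearS algA hB hM W.anaS h0 hb) (W.KP.modS hB hM W.anaS h0 hy hb)
    (W.KP.near2S hB hQ W.anaS hb) algA hM h0 (FL.tubeS hF FL.admS (FL.baseS hF))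
  W.mainOf RK.dio (W.ebS f0)
    (W.torusOf (W.outS h0 halfS hK W.anaS) LB.lbAll (W.FM.famS hQ hM W.anaS h0 f0) f0
      (W.unifS hQ W.anaS h0) (W.laHol algA hM W.anaS hI h0) (W.laMatch algA hQ hM hI h0)
      (W.laFam algA h0) (W.laCov algA h0))
    glueS (W.CV.coverAll f0)

/-- One large mass and two small masses whose ratio is close to a given `l ∈ (0, 3/5]`, in any
order: every area in `(0, π]` is attained. -/
theorem result : ∀ l : ℝ, 0 < l → l ≤ 3 / 5 → ∃ δ : ℝ, 0 < δ ∧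
    ∀ (m : Fin 3 → ℝ) (σ : Equiv.Perm (Fin 3)), 0 < m (σ 0) → 0 < m (σ 1) → 0 < m (σ 2) →
      |m (σ 2) / m (σ 1) - l| < δ → m (σ 1) < δ * m (σ 0) → ∀ A0 : ℝ, 0 < A0 → A0 ≤ Real.pi →
        ∃ q : ℝ → Fin 3 → ℂ, IsSol m q ∧
          area (closure (Set.range fun t => shape m (q t))) = A0 := by
  intro l hl hl'
  obtain ⟨δ, h0, h⟩ := @main ⟨l, hl, hl'⟩
  refine ⟨δ, h0, fun m σ a0 a1 a2 a3 a4 A0 hA hA' => ?_⟩
  refine att_perm σ (fun i => ?_) (h (m ∘ σ) a0 a1 a3 a4 A0 hA hA')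
  obtain ⟨j, rfl⟩ := σ.surjective i
  fin_cases j
  · exact a0
  · exact a1
  · exact a2

end Pool.Agent.Results.MP_1ba41f_an.FullRange
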